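import Mathlib
import Pool.Agent.H355R3.UF.Stmts

set_option autoImplicit false

namespace H980R3.UF

open H355R3 RegularWreathProduct H355R3.UF

theorem sub_nilp {G : Type} [Group G] {H K : Subgroup G} (h : H ≤ K)
    (hK : Group.IsNilpotent K) : Group.IsNilpotent H :=
  nilpotent_of_injective (Subgroup.inclusion h) (Subgroup.inclusion_injective h) hK

/-- a nilpotent normal subgroup not contained in the base group forces `M` to be nilpotent -/
theorem nilp_of_outer {M X : Type} [Group M] [Group X]
    (K : Subgroup (RegularWreathProduct M X)) [K.Normal] (hK : Group.IsNilpotent K)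
    (hk : ∃ k ∈ K, k.right ≠ 1) : Group.IsNilpotent M := by
  classical
  obtain ⟨k, hkK, hk1⟩ := hk
  let B : Subgroup (RegularWreathProduct M X) := K ⊓ (rightHom : _ →* X).ker
  have hB : ∀ r ∈ B, r.right = 1 := fun r hr => hr.2
  have hBn : Group.IsNilpotent B := sub_nilp inf_le_left hK
  refine Group.nilpotent_of_surjective (coord B hB 1) ?_
  intro m
  let b : RegularWreathProduct M X := ⟨Pi.mulSingle 1 m, 1⟩
  have hc : b * (k * b⁻¹ * k⁻¹) ∈ K := by
    have h1 : b * k * b⁻¹ ∈ K := Subgroup.Normal.conj_mem inferInstance k hkK b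
    have h2 := K.mul_mem h1 (K.inv_mem hkK)
    have h3 : b * (k * b⁻¹ * k⁻¹) = b * k * b⁻¹ * k⁻¹ := by group
    rw [h3]
    exact h2
  have hcr : (b * (k * b⁻¹ * k⁻¹)).right = 1 := by
    simp [b]
  refine ⟨⟨_, hc, hcr⟩, ?_⟩
  show (b * (k * b⁻¹ * k⁻¹)).left 1 = m
  have h4 : (Pi.mulSingle 1 m : X → M) (k.right⁻¹) = 1 :=
    Pi.mulSingle_eq_of_ne (M := fun _ : X => M) (inv_ne_one.2 hk1) m
  have h5 : (Pi.mulSingle 1 m : X → M) 1 = m := Pi.mulSingle_eq_same (M := fun _ : X => M) 1 m
  simp [b, h4]

theorem pow_left_one {M X : Type} [Group M] [Group X] (u : RegularWreathProduct M X)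
    (hu : u.right = 1) (n : ℕ) : (u ^ n).right = 1 ∧ (u ^ n).left 1 = (u.left 1) ^ n := by
  induction n with
  | zero => simp
  | succ n ih =>
    rw [pow_succ', pow_succ']
    constructor
    · simp [hu, ih.1]
    · simp [hu, ih.2]

theorem wr_pow {M X : Type} [Group M] [Group X] [Finite X] [DecidableEq X] (m : M) (x : X) :
    ((⟨Pi.mulSingle 1 m, x⟩ : RegularWreathProduct M X) ^ orderOf x).right = 1 ∧
    ((⟨Pi.mulSingle 1 m, x⟩ : RegularWreathProduct M X) ^ orderOf x).left 1 = m := by
  constructor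
  · have h := map_pow (rightHom : RegularWreathProduct M X →* X) ⟨Pi.mulSingle 1 m, x⟩ (orderOf x)
    have h' : ((⟨Pi.mulSingle 1 m, x⟩ : RegularWreathProduct M X) ^ orderOf x).right
      = x ^ orderOf x := h
    rw [h', pow_orderOf_eq_one]
  · let w : RegularWreathProduct M X := ⟨Pi.mulSingle 1 m, x⟩
    have claimA : ∀ (j : ℕ) (z : X), (∀ i < j, z ≠ x ^ i) → (w ^ j).left z = 1 := by
      intro j
      induction j with
      | zero => intro z _; simp
      | succ j ih =>
        intro z hz
        rw [pow_succ']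
        simp only [RegularWreathProduct.mul_left, Pi.mul_apply]
        have h0 : z ≠ 1 := by
          have := hz 0 (Nat.succ_pos j)
          rwa [pow_zero] at this
        have h1 : (w ^ j).left (w.right⁻¹ * z) = 1 := by
          apply ih
          intro i hi hxi
          apply hz (i + 1) (Nat.succ_lt_succ hi)
          have : z = w.right * x ^ i := by rw [← hxi]; group
          rw [this, pow_succ']
        rw [h1, mul_one]
        exact Pi.mulSingle_eq_of_ne (M := fun _ : X => M) h0 m
    have hpos : 0 < orderOf x := orderOf_pos x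
    obtain ⟨n, hn⟩ : ∃ n, orderOf x = n + 1 := ⟨orderOf x - 1, by omega⟩
    show (w ^ orderOf x).left 1 = m
    rw [hn, pow_succ']
    simp only [RegularWreathProduct.mul_left, Pi.mul_apply, mul_one]
    have h1 : (w ^ n).left (w.right⁻¹) = 1 := by
      apply claimA
      intro i hi hxi
      have h2 : x ^ (i + 1) = 1 := by
        rw [pow_succ', ← hxi]
        exact mul_inv_cancel x
      have h3 := orderOf_dvd_of_pow_eq_one h2
      have h4 := Nat.le_of_dvd (Nat.succ_pos i) h3
      omega
    rw [h1, mul_one]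
    exact Pi.mulSingle_eq_same (M := fun _ : X => M) 1 m

theorem powSub_le_of_base {M X : Type} [Group M] [Group X] [Finite X] (d d' : ℕ) (x : X)
    (hd : d = orderOf x * d')
    (hK : ∀ k ∈ powSub d (RegularWreathProduct M X), k.right = 1) :
    powSub d' M ≤ (coord (powSub d (RegularWreathProduct M X)) hK 1).range := by
  classical
  rw [powSub, Subgroup.closure_le]
  rintro _ ⟨m, rfl⟩
  let w : RegularWreathProduct M X := ⟨Pi.mulSingle 1 m, x⟩
  have hwd : w ^ d ∈ powSub d (RegularWreathProduct M X) := Subgroup.subset_closure ⟨w, rfl⟩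
  refine ⟨⟨w ^ d, hwd⟩, ?_⟩
  show (w ^ d).left 1 = m ^ d'
  obtain ⟨h1, h2⟩ := wr_pow m x
  rw [hd, pow_mul, (pow_left_one _ h1 d').2]
  rw [h2]

theorem powSub_one (G : Type) [Group G] : powSub 1 G = ⊤ := by
  rw [eq_top_iff]
  intro g _
  exact Subgroup.subset_closure ⟨g, pow_one g⟩

theorem taskD : H355R3.UF.TaskD := by
  classical
  intro e A X _ _ _ he hA hcl
  have hex : ∃ d : ℕ, 0 < d ∧ NilPow d A := ⟨e, he, hA⟩
  obtain ⟨hd0, hd⟩ := Nat.find_spec hex
  have hmin := fun n (hn : n < Nat.find hex) => Nat.find_min hex hn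
  generalize Nat.find hex = d at hd0 hd hmin
  by_contra hcon
  push Not at hcon
  obtain ⟨M₀, iM, fM, hM₀, hM₀n⟩ := hcon
  -- an element of prime order
  have hcard : 1 < Nat.card X := Finite.one_lt_card
  obtain ⟨r, hr, hrX⟩ := Nat.exists_prime_and_dvd hcard.ne'
  have : Fact r.Prime := ⟨hr⟩
  obtain ⟨x, hx⟩ := exists_prime_orderOf_dvd_card' r hrX
  have key : ∀ (M : Type) [Group M] [Finite M], A.Mem M → ¬ Group.IsNilpotent M →
      ∀ k ∈ powSub d (RegularWreathProduct M X), k.right = 1 := by
    intro M _ _ hM hMn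
    by_contra hc
    push Not at hc
    exact hMn (nilp_of_outer _ (hd _ (hcl M hM)) hc)
  have hrd : r ∣ d := by
    have h1 := key M₀ hM₀ hM₀n ((⟨1, x⟩ : RegularWreathProduct M₀ X) ^ d)
      (Subgroup.subset_closure ⟨_, rfl⟩)
    have h2' := map_pow (rightHom : RegularWreathProduct M₀ X →* X) (⟨1, x⟩ :
      RegularWreathProduct M₀ X) d
    have h2 : ((⟨1, x⟩ : RegularWreathProduct M₀ X) ^ d).right = x ^ d := h2'
    rw [h2] at h1
    rw [← hx]
    exact orderOf_dvd_of_pow_eq_one h1
  obtain ⟨d', hd'⟩ := hrd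
  have hd'0 : 0 < d' := by
    rcases Nat.eq_zero_or_pos d' with h | h
    · rw [h, mul_zero] at hd'; omega
    · exact h
  have hlt : d' < d := by
    rw [hd']
    have := hr.two_le
    nlinarith
  apply hmin d' hlt
  refine ⟨hd'0, ?_⟩
  intro M _ _ hM
  by_cases hMn : Group.IsNilpotent M
  · infer_instance
  · have hK := key M hM hMn
    have h1 := powSub_le_of_base (M := M) d d' x (by rw [hx]; exact hd') hK
    have h2 : Group.IsNilpotent (powSub d (RegularWreathProduct M X)) := hd _ (hcl M hM)
    have h3 : Group.IsNilpotent (coord (powSub d (RegularWreathProduct M X)) hK 1).range :=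
      Group.nilpotent_of_surjective _ (MonoidHom.rangeRestrict_surjective _)
    exact sub_nilp h1 h3

end H980R3.UF
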